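import Pool.Agent.H75.PT.Targets

/-!
# MP_c95a35_lc, board bwp_modules: rows TIM and DEC
-/

set_option autoImplicit false

open List Finset Pool.Agent.H68.TG Pool.Agent.H75.RW Pool.Agent.H70.PT Pool.Agent.H75.PT

namespace Pool.Agent.H19.BW.TIM

/-- the number of steps of `T` passes -/
theorem step_sum (w : List (Fin 3)) (T : ℕ) :
    step^[∑ i ∈ Finset.range T, ((ps^[i] w).length + 1) / 2] w = ps^[T] w := by
  induction T with
  | zero => rfl
  | succ T ih =>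
    rw [Finset.sum_range_succ, Nat.add_comm, Function.iterate_add_apply, ih,
      Function.iterate_succ_apply']
    rfl

theorem pf_TIM : Pool.Agent.H75.PT.T_TIM := by
  intro w T hT
  induction T with
  | zero => omega
  | succ T ih =>
    intro h j hj
    rw [Finset.sum_range_succ] at hj
    by_cases hjT : j ≤ ∑ i ∈ Finset.range T, ((ps^[i] w).length + 1) / 2
    · rcases Nat.eq_zero_or_pos T with h0 | h0
      · subst h0
        rw [Finset.sum_range_zero] at hjT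
        obtain rfl : j = 0 := by omega
        exact h 0 (by omega) 0 (Nat.zero_le _)
      · exact ih h0 (fun i hi => h i (by omega)) j hjT
    · push Not at hjT
      obtain ⟨j', rfl⟩ : ∃ j', j = j' + ∑ i ∈ Finset.range T, ((ps^[i] w).length + 1) / 2 :=
        ⟨j - ∑ i ∈ Finset.range T, ((ps^[i] w).length + 1) / 2, by omega⟩
      rw [Function.iterate_add_apply, step_sum]
      exact h T (by omega) j' (by omega)

/-- one block -/
theorem one_block (t m p x : ℕ) (A Xt : ℝ) (hx : x < 2 ^ m)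
    (h1 : (3 : ℝ) ^ p * (x - 2 ^ t) ≤ 2 ^ t * Xt) (h2 : 2 ^ t * Xt ≤ (3 : ℝ) ^ p * (x + 2 ^ t))
    (hmu : bm t (cu t A) + bm t (cw t A) = 1) (htau : 0 ≤ bm t (cw t A)) :
    |Xt - x - 2 ^ t * ((x / 2 ^ t : ℕ) : ℝ) * (cu t A p - bm t (cu t A))| ≤
      2 * 3 ^ p + 2 ^ m * cw t A p + 2 ^ m * bm t (cw t A) + 2 ^ t := by
  have hT : (0 : ℝ) < 2 ^ t := by positivity
  have hW : (0 : ℝ) < 3 ^ p := by positivity
  have hUV : cu t A p + cw t A p = 3 ^ p / 2 ^ t := by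
    unfold cu cw
    split_ifs
    · rw [add_zero]
    · rw [zero_add]
  have hV : 0 ≤ cw t A p := by
    unfold cw
    split_ifs
    · exact le_rfl
    · positivity
  have hdm := Nat.div_add_mod x (2 ^ t)
  have hlt := Nat.mod_lt x (show 0 < 2 ^ t by positivity)
  have hx' : (x : ℝ) = 2 ^ t * ((x / 2 ^ t : ℕ) : ℝ) + ((x % 2 ^ t : ℕ) : ℝ) := by
    exact_mod_cast hdm.symm
  have hx0 : (0 : ℝ) ≤ ((x % 2 ^ t : ℕ) : ℝ) := Nat.cast_nonneg _
  have hx1 : ((x % 2 ^ t : ℕ) : ℝ) ≤ 2 ^ t := by exact_mod_cast hlt.le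
  have hh0 : (0 : ℝ) ≤ 2 ^ t * ((x / 2 ^ t : ℕ) : ℝ) := by positivity
  have hxm : (x : ℝ) ≤ 2 ^ m := by exact_mod_cast hx.le
  generalize hH : 2 ^ t * ((x / 2 ^ t : ℕ) : ℝ) = h at *
  generalize hX0 : ((x % 2 ^ t : ℕ) : ℝ) = x0 at *
  generalize hU : cu t A p = U at *
  generalize hVV : cw t A p = V at *
  generalize hM : bm t (cu t A) = μ at *
  generalize hTT : bm t (cw t A) = τ at *
  have hm1 : h ≤ 2 ^ m := by linarith
  have h3 : |Xt - 3 ^ p / 2 ^ t * x| ≤ 3 ^ p := by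
    have h4 : Xt - 3 ^ p / 2 ^ t * x = (2 ^ t * Xt - 3 ^ p * x) / 2 ^ t := by
      field_simp
    rw [h4, abs_div, abs_of_pos hT, div_le_iff₀ hT, abs_le]
    constructor <;> nlinarith
  have h5 : 3 ^ p / 2 ^ t * (x : ℝ) = h * U + h * V + 3 ^ p / 2 ^ t * x0 := by
    rw [hx', ← hUV]; ring
  have h6 : 0 ≤ (3 : ℝ) ^ p / 2 ^ t * x0 := by positivity
  have h7 : (3 : ℝ) ^ p / 2 ^ t * x0 ≤ 3 ^ p := by
    rw [div_mul_eq_mul_div, div_le_iff₀ hT]
    exact mul_le_mul_of_nonneg_left hx1 hW.le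
  have h8 : 0 ≤ h * V := mul_nonneg hh0 hV
  have h9 : h * V ≤ 2 ^ m * V := mul_le_mul_of_nonneg_right hm1 hV
  have h10 : 0 ≤ h * τ := mul_nonneg hh0 htau
  have h11 : h * τ ≤ 2 ^ m * τ := mul_le_mul_of_nonneg_right hm1 htau
  have h12 : Xt - x - h * (U - μ) = (Xt - 3 ^ p / 2 ^ t * x) + h * V + 3 ^ p / 2 ^ t * x0 -
      h * τ - x0 := by
    have h13 : μ = 1 - τ := by linarith
    rw [h5, hx', h13]; ring
  rw [h12]
  rw [abs_le] at h3 ⊢
  constructor <;> linarith [h3.1, h3.2]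

theorem pf_DEC (SIZ : Pool.Agent.H70.PT.T_SIZ) : Pool.Agent.H75.PT.T_DEC := by
  intro r t m A X Y _ hX Y' hmu htau
  have hS := SIZ r t (false, X, Y)
  have hA : ∀ i : Fin r, |((ru t X Y).2.1 i : ℝ) - X i -
      2 ^ t * ((X i / 2 ^ t : ℕ) : ℝ) * (cu t A (PP t (false, X, Y) i) - bm t (cu t A))| ≤
      2 * 3 ^ PP t (false, X, Y) i + 2 ^ m * cw t A (PP t (false, X, Y) i) +
        2 ^ m * bm t (cw t A) + 2 ^ t := fun i =>
    one_block t m _ (X i) A _ (hX i) (hS i).1.1 (hS i).1.2 hmu htau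
  have hB : ∀ i : Fin r, |((ru t X Y).2.2 i : ℝ) - Y i -
      2 ^ t * ((Y i / 2 ^ t : ℕ) : ℝ) * (cu t A (QQ t (false, X, Y) i) - bm t (cu t A))| ≤
      2 * 3 ^ QQ t (false, X, Y) i + 2 ^ m * cw t A (QQ t (false, X, Y) i) +
        2 ^ m * bm t (cw t A) + 2 ^ t := fun i =>
    one_block t m _ (Y i) A _ (Y' i) (hS i).2.1 (hS i).2.2 hmu htau
  have h1 : (LL (ru t X Y) : ℝ) - LL (false, X, Y) - Pool.Agent.H75.PT.s1 t A X Y - 2 * Pool.Agent.H75.PT.s2 t A X Y =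
      ∑ i, ((((ru t X Y).2.1 i : ℝ) - X i -
        2 ^ t * ((X i / 2 ^ t : ℕ) : ℝ) * (cu t A (PP t (false, X, Y) i) - bm t (cu t A))) +
        2 * (((ru t X Y).2.2 i : ℝ) - Y i -
        2 ^ t * ((Y i / 2 ^ t : ℕ) : ℝ) * (cu t A (QQ t (false, X, Y) i) - bm t (cu t A)))) := by
    unfold LL Pool.Agent.H75.PT.s1 Pool.Agent.H75.PT.s2
    push_cast
    simp only [Finset.sum_add_distrib, ← Finset.mul_sum, Finset.sum_sub_distrib]
    ring
  have h2 : |(LL (ru t X Y) : ℝ) - LL (false, X, Y) - Pool.Agent.H75.PT.s1 t A X Y - 2 * Pool.Agent.H75.PT.s2 t A X Y| ≤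
      ∑ i : Fin r, ((2 * 3 ^ PP t (false, X, Y) i + 2 ^ m * cw t A (PP t (false, X, Y) i) +
        2 ^ m * bm t (cw t A) + 2 ^ t) +
        2 * (2 * 3 ^ QQ t (false, X, Y) i + 2 ^ m * cw t A (QQ t (false, X, Y) i) +
        2 ^ m * bm t (cw t A) + 2 ^ t)) := by
    rw [h1]
    refine (Finset.abs_sum_le_sum_abs _ _).trans (Finset.sum_le_sum fun i _ => ?_)
    refine (abs_add_le _ _).trans (add_le_add (hA i) ?_)
    rw [abs_mul, abs_of_pos (by norm_num : (0 : ℝ) < 2)]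
    exact mul_le_mul_of_nonneg_left (hB i) (by norm_num)
  have h3 : ∑ i : Fin r, ((2 * 3 ^ PP t (false, X, Y) i + 2 ^ m * cw t A (PP t (false, X, Y) i) +
        2 ^ m * bm t (cw t A) + 2 ^ t) +
        2 * (2 * 3 ^ QQ t (false, X, Y) i + 2 ^ m * cw t A (QQ t (false, X, Y) i) +
        2 ^ m * bm t (cw t A) + 2 ^ t)) =
      2 ^ m * ∑ i, (cw t A (PP t (false, X, Y) i) + 2 * cw t A (QQ t (false, X, Y) i)) +
    ∑ i, ((2 : ℝ) * 3 ^ PP t (false, X, Y) i + 4 * 3 ^ QQ t (false, X, Y) i) +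
    3 * r * 2 ^ m * bm t (cw t A) + 3 * r * 2 ^ t := by
    have h4 : (3 * r * 2 ^ m * bm t (cw t A) + 3 * r * 2 ^ t : ℝ) =
        ∑ _i : Fin r, (3 * 2 ^ m * bm t (cw t A) + 3 * 2 ^ t) := by
      rw [Finset.sum_const, Finset.card_univ, Fintype.card_fin, nsmul_eq_mul]
      ring
    rw [add_assoc, h4, Finset.mul_sum, ← Finset.sum_add_distrib, ← Finset.sum_add_distrib]
    refine Finset.sum_congr rfl fun i _ => ?_
    ring
  rw [h3] at h2
  have h5 := abs_add_le ((LL (ru t X Y) : ℝ) - LL (false, X, Y) - Pool.Agent.H75.PT.s1 t A X Y - 2 * Pool.Agent.H75.PT.s2 t A X Y)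
    (Pool.Agent.H75.PT.s1 t A X Y + 2 * Pool.Agent.H75.PT.s2 t A X Y)
  have h6 := abs_add_le (Pool.Agent.H75.PT.s1 t A X Y) (2 * Pool.Agent.H75.PT.s2 t A X Y)
  rw [abs_mul, abs_of_pos (by norm_num : (0 : ℝ) < 2)] at h6
  have h7 : (LL (ru t X Y) : ℝ) - LL (false, X, Y) - Pool.Agent.H75.PT.s1 t A X Y - 2 * Pool.Agent.H75.PT.s2 t A X Y +
      (Pool.Agent.H75.PT.s1 t A X Y + 2 * Pool.Agent.H75.PT.s2 t A X Y) = (LL (ru t X Y) : ℝ) - LL (false, X, Y) := by ring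
  rw [h7] at h5
  linarith

end Pool.Agent.H19.BW.TIM
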