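import Pool.Agent.H70.PT.Targets

/-! Board `bwp_modules`, rows TOB and LBD. -/

set_option autoImplicit false

open List Finset

namespace Pool.Agent.H19.BW

open Pool.Agent.H70.PT

private theorem pst_succ {r : ℕ} (a : Bool) (X : Fin r → ℕ) (i : Fin r) :
    pst a X ((i : ℕ) + 1) = xor (pst a X i) (X i).bodd := by
  unfold pst
  have h1 : (∑ j : Fin r, if (j : ℕ) < (i : ℕ) + 1 then X j else 0) =
      (∑ j : Fin r, if (j : ℕ) < (i : ℕ) then X j else 0) + X i := by
    have h2 : ∀ j : Fin r, (if (j : ℕ) < (i : ℕ) + 1 then X j else 0) =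
        (if (j : ℕ) < (i : ℕ) then X j else 0) + (if j = i then X j else 0) := by
      intro j
      by_cases h3 : j = i
      · subst h3
        simp
      · have h4 : (j : ℕ) ≠ (i : ℕ) := fun h => h3 (Fin.ext h)
        by_cases h5 : (j : ℕ) < (i : ℕ)
        · rw [if_pos (by omega), if_pos h5, if_neg h3, add_zero]
        · rw [if_neg (by omega), if_neg h5, if_neg h3]
    rw [Finset.sum_congr rfl fun j _ => h2 j, Finset.sum_add_distrib]
    congr 1
    rw [Finset.sum_ite_eq' Finset.univ i, if_pos (Finset.mem_univ _)]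
  rw [h1, Nat.bodd_add, Bool.xor_assoc]

private theorem pst_zero {r : ℕ} (a : Bool) (X : Fin r → ℕ) : pst a X 0 = a := by
  unfold pst
  simp

private theorem bodd_tn {r : ℕ} (c : Fin r → Bool) (i : Fin r) : (tn c i).bodd = c i := by
  unfold tn
  cases c i <;> rfl

private theorem inj {r : ℕ} (a : Bool) :
    Function.Injective fun (c : Fin r → Bool) (i : Fin r) => pst a (tn c) ((i : ℕ) + 1) := by
  intro c c' h
  have h1 : ∀ i : ℕ, i ≤ r → pst a (tn c) i = pst a (tn c') i := by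
    intro i hi
    rcases i with _ | i
    · rw [pst_zero, pst_zero]
    · exact congrFun h ⟨i, by omega⟩
  funext i
  have h2 := congrFun h i
  simp only [] at h2
  rw [pst_succ, pst_succ, h1 i i.2.le, bodd_tn, bodd_tn] at h2
  exact Bool.xor_right_inj.1 h2

/-- the inner sums -/
private noncomputable def BB {r : ℕ} (g : Fin r → ℕ → ℝ) (n : ℕ) (i : Fin r) (k : ℕ) : ℝ :=
  ∑ j ∈ Finset.range (n + 1), (n.choose j : ℝ) * g i (k + j)

private theorem BB_succ {r : ℕ} (g : Fin r → ℕ → ℝ) (n : ℕ) (i : Fin r) (k : ℕ) :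
    BB g (n + 1) i k = BB g n i (k + 1) + BB g n i k := by
  unfold BB
  rw [Finset.sum_range_succ' (fun j => ((n + 1).choose j : ℝ) * g i (k + j)) (n + 1)]
  have h1 : ∀ j ∈ Finset.range (n + 1), ((n + 1).choose (j + 1) : ℝ) * g i (k + (j + 1)) =
      (n.choose j : ℝ) * g i (k + 1 + j) + (n.choose (j + 1) : ℝ) * g i (k + (j + 1)) := by
    intro j _
    have h3 : k + 1 + j = k + (j + 1) := by omega
    rw [h3, Nat.choose_succ_succ, Nat.cast_add]
    ring
  rw [Finset.sum_congr rfl h1, Finset.sum_add_distrib, add_assoc]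
  congr 1
  have h2 := Finset.sum_range_succ' (fun j => (n.choose j : ℝ) * g i (k + j)) (n + 1)
  rw [Finset.sum_range_succ] at h2
  rw [Nat.choose_succ_self, Nat.cast_zero, zero_mul, add_zero] at h2
  rw [h2]
  simp

theorem pf_TOB : T_TOB := by
  intro r n
  induction n with
  | zero =>
    intro a P Q g
    simp [tot]
  | succ n ih =>
    intro a P Q g
    have h1 : tot (fun _ Q => ∏ i, g i (Q i)) (n + 1) a P Q =
        ∑ c : Fin r → Bool, ∑ _d : Fin r → Bool,
          (2 ^ r : ℝ) ^ n * ∏ i, BB g n i (Q i + cond (pst a (tn c) ((i : ℕ) + 1)) 1 0) := by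
      rw [tot]
      refine Finset.sum_congr rfl fun c _ => Finset.sum_congr rfl fun d _ => ?_
      rw [ih]
      rfl
    rw [h1]
    have h2 : ∀ c : Fin r → Bool, (∑ _d : Fin r → Bool,
        (2 ^ r : ℝ) ^ n * ∏ i, BB g n i (Q i + cond (pst a (tn c) ((i : ℕ) + 1)) 1 0)) =
        (2 ^ r : ℝ) ^ (n + 1) *
          ∏ i, BB g n i (Q i + cond (pst a (tn c) ((i : ℕ) + 1)) 1 0) := by
      intro c
      rw [Finset.sum_const, Finset.card_univ, Fintype.card_fun, Fintype.card_bool,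
        Fintype.card_fin, nsmul_eq_mul, pow_succ]
      push_cast
      ring
    rw [Finset.sum_congr rfl fun c _ => h2 c, ← Finset.mul_sum]
    congr 1
    have h3 := (Finite.injective_iff_bijective.1 (inj (r := r) a)).sum_comp
      (fun e : Fin r → Bool => ∏ i, BB g n i (Q i + cond (e i) 1 0))
    rw [h3]
    have h4 := Finset.prod_univ_sum (fun _ : Fin r => (Finset.univ : Finset Bool))
      (fun i b => BB g n i (Q i + cond b 1 0))
    rw [Fintype.piFinset_univ] at h4
    rw [← h4]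
    refine Finset.prod_congr rfl fun i _ => ?_
    rw [Fintype.sum_bool]
    exact (BB_succ g n i (Q i)).symm

theorem pf_LBD (SIZ : T_SIZ) : T_LBD := by
  classical
  intro r n m k X Y hm
  obtain ⟨S, hS⟩ : ∃ S : Finset (Fin r), S = Finset.univ.filter fun i : Fin r =>
      QQ n (false, X, Y) i = k ∧ 2 ^ (m - 1) ≤ Y i := ⟨_, rfl⟩
  have hnk : nk n m k X Y = S.card := by
    rw [hS]
    unfold nk
    congr
  have hmem : ∀ i, i ∈ S ↔ QQ n (false, X, Y) i = k ∧ 2 ^ (m - 1) ≤ Y i := by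
    intro i
    rw [hS, Finset.mem_filter]
    exact ⟨fun h => h.2, fun h => ⟨Finset.mem_univ _, h⟩⟩
  constructor
  · rw [hnk]
    have h1 : ∀ i ∈ S, (2 : ℝ) ^ m * 3 ^ k / 2 ^ (n + 1) ≤
        (((ru n X Y).2.1 i + 2 * (ru n X Y).2.2 i : ℕ) : ℝ) := by
      intro i hi
      obtain ⟨hk, hY⟩ := (hmem i).1 hi
      have h2 := (SIZ r n (false, X, Y) i).2.1
      rw [hk] at h2
      have h3 : (2 : ℝ) ^ (m - 1) ≤ (Y i : ℝ) := by exact_mod_cast hY
      have hm1 : (2 : ℝ) ^ m = 2 * 2 ^ (m - 1) := by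
        rw [← pow_succ']
        congr 1
        omega
      have hm2 : (2 : ℝ) ^ (m - 1) = 2 * 2 ^ (m - 2) := by
        rw [← pow_succ']
        congr 1
        omega
      have hn2 : (2 : ℝ) ^ n ≤ 2 ^ (m - 2) := pow_le_pow_right₀ (by norm_num) (by omega)
      have h4 : (2 : ℝ) ^ (m - 2) ≤ (Y i : ℝ) - 2 ^ n := by linarith
      have h5 : (3 : ℝ) ^ k * 2 ^ (m - 2) ≤ 2 ^ n * ((nx^[n] (false, X, Y)).2.2 i : ℝ) :=
        le_trans (mul_le_mul_of_nonneg_left h4 (by positivity)) h2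
      have h6 : (2 : ℝ) ^ m * 3 ^ k / 2 ^ (n + 1) ≤
          2 * ((nx^[n] (false, X, Y)).2.2 i : ℝ) := by
        rw [div_le_iff₀ (by positivity), hm1, hm2, pow_succ]
        nlinarith
      refine h6.trans ?_
      push_cast
      have h7 : (0 : ℝ) ≤ ((ru n X Y).2.1 i : ℝ) := Nat.cast_nonneg _
      have h8 : ((ru n X Y).2.2 i : ℝ) = ((nx^[n] (false, X, Y)).2.2 i : ℝ) := rfl
      rw [h8]
      linarith
    have h9 : (S.card : ℝ) * 2 ^ m * 3 ^ k / 2 ^ (n + 1) =
        ∑ _i ∈ S, (2 : ℝ) ^ m * 3 ^ k / 2 ^ (n + 1) := by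
      rw [Finset.sum_const, nsmul_eq_mul]
      ring
    rw [h9]
    refine (Finset.sum_le_sum h1).trans ?_
    unfold LL
    rw [Nat.cast_sum]
    exact Finset.sum_le_sum_of_subset_of_nonneg (Finset.subset_univ S)
      fun i _ _ => Nat.cast_nonneg _
  · intro h
    rw [hnk] at h
    obtain ⟨i, hi⟩ := Finset.card_pos.1 (by omega : 0 < S.card)
    exact ⟨i, ((hmem i).1 hi).2⟩

end Pool.Agent.H19.BW
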